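import Mathlib

set_option autoImplicit false
set_option linter.style.haveILetI false

open Filter Topology Set Cardinal

universe u

namespace Pool.Agent.Results.MP_e9190d_gt.CovMeagre

/-- A homogeneous connected space that is locally `ℝⁿ` and not Hausdorff. -/
structure IsHNHManifold (n : ℕ) (M : Type u) [TopologicalSpace M] : Prop where
  connected : ConnectedSpace M
  locallyEuclidean : ∀ x : M, ∃ U : Set M, IsOpen U ∧ x ∈ U ∧
    Nonempty (U ≃ₜ EuclideanSpace ℝ (Fin n))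
  homogeneous : ∀ x y : M, ∃ h : M ≃ₜ M, h x = y
  notHausdorff : ¬ T2Space M

/-- The least cardinality of a cover by open Hausdorff subsets. -/
noncomputable def OH (M : Type u) [TopologicalSpace M] : Cardinal.{u} :=
  sInf {κ | ∃ 𝒱 : Set (Set M), (∀ V ∈ 𝒱, IsOpen V ∧ T2Space V) ∧ ⋃₀ 𝒱 = Set.univ ∧ #𝒱 = κ}

/-- The least cardinality of a cover of `ℝⁿ` by meagre sets. -/
noncomputable def covMeagre (n : ℕ) : Cardinal.{0} :=
  sInf {κ | ∃ 𝒮 : Set (Set (EuclideanSpace ℝ (Fin n))), (∀ S ∈ 𝒮, IsMeagre S) ∧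
    ⋃₀ 𝒮 = Set.univ ∧ #𝒮 = κ}

theorem exists_chart {n : ℕ} {M : Type u} [TopologicalSpace M] (hM : IsHNHManifold n M) (x : M) :
    ∃ j : EuclideanSpace ℝ (Fin n) → M, IsOpenEmbedding j ∧ x ∈ range j := by
  obtain ⟨U, hU, hxU, ⟨e⟩⟩ := hM.locallyEuclidean x
  refine ⟨fun t => (e.symm t : M), hU.isOpenEmbedding_subtypeVal.comp e.symm.isOpenEmbedding, ?_⟩
  exact ⟨e ⟨x, hxU⟩, by simp⟩

theorem exists_nonsep {n : ℕ} {M : Type u} [TopologicalSpace M] (hM : IsHNHManifold n M) (x : M) :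
    ∃ y : M, y ≠ x ∧ ∀ u v : Set M, IsOpen u → IsOpen v → x ∈ u → y ∈ v →
      (u ∩ v).Nonempty := by
  have hnh : ∃ a b : M, a ≠ b ∧ ∀ u v : Set M, IsOpen u → IsOpen v → a ∈ u → b ∈ v →
      ¬ Disjoint u v := by
    by_contra hcon
    apply hM.notHausdorff
    refine ⟨fun a b hab => ?_⟩
    by_contra H
    apply hcon
    refine ⟨a, b, hab, fun u v hu hv hau hbv huv => ?_⟩
    exact H ⟨u, v, hu, hv, hau, hbv, huv⟩
  obtain ⟨a, b, hab, H⟩ := hnh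
  obtain ⟨h, rfl⟩ := hM.homogeneous a x
  refine ⟨h b, fun e => hab (h.injective e.symm), fun u v hu hv hau hbv => ?_⟩
  have h1 := H (h ⁻¹' u) (h ⁻¹' v) (hu.preimage h.continuous) (hv.preimage h.continuous) hau hbv
  rw [not_disjoint_iff_nonempty_inter] at h1
  obtain ⟨z, hz1, hz2⟩ := h1
  exact ⟨h z, hz1, hz2⟩

theorem cover_frontier {n : ℕ} {M : Type u} [TopologicalSpace M] (hM : IsHNHManifold n M)
    {𝒱 : Set (Set M)} (h1 : ∀ V ∈ 𝒱, IsOpen V ∧ T2Space V) (h2 : ⋃₀ 𝒱 = Set.univ)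
    {j : EuclideanSpace ℝ (Fin n) → M} (hj : IsOpenEmbedding j) (s : EuclideanSpace ℝ (Fin n)) :
    ∃ V ∈ 𝒱, s ∈ frontier (j ⁻¹' V) := by
  obtain ⟨y, hy, H⟩ := exists_nonsep hM (j s)
  have hyU : y ∈ ⋃₀ 𝒱 := by rw [h2]; trivial
  obtain ⟨V, hV, hyV⟩ := hyU
  obtain ⟨hVo, hVt⟩ := h1 V hV
  refine ⟨V, hV, ?_⟩
  rw [(hVo.preimage hj.continuous).frontier_eq]
  constructor
  · rw [mem_closure_iff]
    intro o ho hso
    obtain ⟨_, ⟨t, ht, rfl⟩, htV⟩ := H (j '' o) V (hj.isOpenMap o ho) hVo ⟨s, hso, rfl⟩ hyV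
    exact ⟨t, ht, htV⟩
  · intro hsV
    have hne : (⟨y, hyV⟩ : V) ≠ ⟨j s, hsV⟩ := fun h => hy (congrArg Subtype.val h)
    obtain ⟨u, v, hu, hv, hyu, hsv, huv⟩ := t2_separation hne
    obtain ⟨z, ⟨a, ha, haz⟩, ⟨b, hb, hbz⟩⟩ := H (Subtype.val '' v) (Subtype.val '' u)
      (hVo.isOpenMap_subtype_val v hv) (hVo.isOpenMap_subtype_val u hu) ⟨_, hsv, rfl⟩
      ⟨_, hyu, rfl⟩
    have hab : a = b := Subtype.ext (haz.trans hbz.symm)
    rw [hab] at ha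
    exact disjoint_left.1 huv hb ha

theorem frontier_cover {n : ℕ} {M : Type u} [TopologicalSpace M] (hM : IsHNHManifold n M)
    {𝒱 : Set (Set M)} (h1 : ∀ V ∈ 𝒱, IsOpen V ∧ T2Space V) (h2 : ⋃₀ 𝒱 = Set.univ) :
    ∃ 𝒮 : Set (Set (EuclideanSpace ℝ (Fin n))), (∀ S ∈ 𝒮, IsMeagre S) ∧
      ⋃₀ 𝒮 = Set.univ ∧ Cardinal.lift.{u} #𝒮 ≤ #𝒱 := by
  have := hM.connected
  obtain ⟨x0⟩ : Nonempty M := inferInstance
  obtain ⟨j, hj, -⟩ := exists_chart hM x0
  let f : 𝒱 → Set (EuclideanSpace ℝ (Fin n)) := fun V => frontier (j ⁻¹' V.1)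
  refine ⟨range f, ?_, ?_, ?_⟩
  · rintro _ ⟨V, rfl⟩
    have h4 : IsOpen (j ⁻¹' V.1) := (h1 V.1 V.2).1.preimage hj.continuous
    have h5 : IsNowhereDense (frontier (j ⁻¹' V.1)) := by
      rw [isClosed_frontier.isNowhereDense_iff]
      rw [← frontier_compl]
      exact interior_frontier h4.isClosed_compl
    exact h5.isMeagre
  · rw [eq_univ_iff_forall]
    intro s
    obtain ⟨V, hV, hs⟩ := cover_frontier hM h1 h2 hj s
    exact ⟨_, ⟨⟨V, hV⟩, rfl⟩, hs⟩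
  · have h4 : Cardinal.lift.{u} #(range f) ≤ Cardinal.lift.{0} #𝒱 :=
      Cardinal.mk_range_le_lift
    rwa [Cardinal.lift_uzero] at h4

theorem hausdorff_cover {n : ℕ} {M : Type u} [TopologicalSpace M] (hM : IsHNHManifold n M) :
    ⋃₀ {V : Set M | IsOpen V ∧ T2Space V} = Set.univ := by
  rw [eq_univ_iff_forall]
  intro x
  obtain ⟨U, hU, hxU, ⟨e⟩⟩ := hM.locallyEuclidean x
  exact ⟨U, ⟨hU, e.isEmbedding.t2Space⟩, hxU⟩

/-- A homogeneous non-Hausdorff manifold is not covered by fewer open Hausdorff sets than the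
number of meagre sets needed to cover `ℝⁿ`, and that number is uncountable. -/
theorem result {n : ℕ} {M : Type u} [TopologicalSpace M] (hM : IsHNHManifold n M) :
    Cardinal.lift.{u} (covMeagre n) ≤ OH M ∧ ℵ₁ ≤ covMeagre n := by
  constructor
  · refine le_csInf ⟨_, {V : Set M | IsOpen V ∧ T2Space V}, fun V hV => hV,
      hausdorff_cover hM, rfl⟩ ?_
    rintro κ ⟨𝒱, h1, h2, rfl⟩
    obtain ⟨𝒮, h3, h4, h5⟩ := frontier_cover hM h1 h2
    have h6 : covMeagre n ≤ #𝒮 := csInf_le' ⟨𝒮, h3, h4, rfl⟩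
    exact (Cardinal.lift_le.2 h6).trans h5
  · obtain ⟨𝒮, h3, h4, -⟩ := frontier_cover hM (fun V hV => hV) (hausdorff_cover hM)
    refine le_csInf ⟨_, 𝒮, h3, h4, rfl⟩ ?_
    rintro κ ⟨𝒮, h3, h4, rfl⟩
    by_contra hlt
    push Not at hlt
    have h5 : 𝒮.Countable := by
      rw [← Cardinal.le_aleph0_iff_set_countable]
      rw [← Cardinal.succ_aleph0] at hlt
      exact Order.lt_succ_iff.1 hlt
    have h6 : IsMeagre (Set.univ : Set (EuclideanSpace ℝ (Fin n))) := by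
      rw [← h4, sUnion_eq_biUnion]
      exact isMeagre_biUnion h5 h3
    exact not_isMeagre_of_isOpen isOpen_univ univ_nonempty h6

end Pool.Agent.Results.MP_e9190d_gt.CovMeagre
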