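import Mathlib

set_option autoImplicit false
set_option linter.unusedSectionVars false
set_option linter.style.haveILetI false

open Filter Topology Set Cardinal

universe u

namespace Pool.Agent.Results.MP_e9190d_gt.DimOne

/-- A homogeneous connected space that is locally `ℝⁿ` and not Hausdorff. -/
structure IsHNHManifold (n : ℕ) (M : Type u) [TopologicalSpace M] : Prop where
  connected : ConnectedSpace M
  locallyEuclidean : ∀ x : M, ∃ U : Set M, IsOpen U ∧ x ∈ U ∧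
    Nonempty (U ≃ₜ EuclideanSpace ℝ (Fin n))
  homogeneous : ∀ x y : M, ∃ h : M ≃ₜ M, h x = y
  notHausdorff : ¬ T2Space M

/-- The least cardinality of a cover by open Hausdorff subsets. -/
noncomputable def OH (M : Type u) [TopologicalSpace M] : Cardinal.{u} :=
  sInf {κ | ∃ 𝒱 : Set (Set M), (∀ V ∈ 𝒱, IsOpen V ∧ T2Space V) ∧ ⋃₀ 𝒱 = Set.univ ∧ #𝒱 = κ}

section real

theorem tri_mono {g : ℝ → ℝ} {t d : ℝ} (htd : t < d) (hc : ContinuousOn g (Ioo t d))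
    (hm : StrictMonoOn g (Ioo t d)) :
    (∃ L, Tendsto g (𝓝[<] d) (𝓝 L)) ∨
      (Tendsto g (𝓝[<] d) atTop ∧ ∃ C, ∀ y, C ≤ y → ∃ s ∈ Ioo t d, g s = y) := by
  by_cases hb : BddAbove (g '' Ioo t d)
  · exact Or.inl ⟨_, hm.monotoneOn.tendsto_nhdsWithin_Ioo_left (nonempty_Ioo.2 htd) hb⟩
  · right
    rw [not_bddAbove_iff] at hb
    refine ⟨?_, ?_⟩
    · rw [tendsto_atTop]
      intro C
      obtain ⟨_, ⟨s, hs, rfl⟩, hC⟩ := hb C
      filter_upwards [Ioo_mem_nhdsLT hs.2] with w hw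
      exact (hC.trans (hm hs ⟨hs.1.trans hw.1, hw.2⟩ hw.1)).le
    · obtain ⟨m, hm1, hm2⟩ := exists_between htd
      refine ⟨g m, fun y hy => ?_⟩
      obtain ⟨_, ⟨s, hs, rfl⟩, hC⟩ := hb y
      have hms : m ≤ s := by
        by_contra h
        push Not at h
        have := hm hs ⟨hm1, hm2⟩ h
        linarith
      have hsub : Icc m s ⊆ Ioo t d := Icc_subset_Ioo hm1 hs.2
      obtain ⟨x, hx, hxy⟩ := intermediate_value_Icc hms (hc.mono hsub) ⟨hy, hC.le⟩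
      exact ⟨x, hsub hx, hxy⟩

theorem tri {g : ℝ → ℝ} {t d : ℝ} (htd : t < d) (hc : ContinuousOn g (Ioo t d))
    (hi : InjOn g (Ioo t d)) :
    (∃ L, Tendsto g (𝓝[<] d) (𝓝 L)) ∨
      (Tendsto g (𝓝[<] d) atTop ∧ ∃ C, ∀ y, C ≤ y → ∃ s ∈ Ioo t d, g s = y) ∨
      (Tendsto g (𝓝[<] d) atBot ∧ ∃ C, ∀ y, y ≤ C → ∃ s ∈ Ioo t d, g s = y) := by
  rcases hc.strictMonoOn_of_injOn_Ioo htd hi with h | h
  · rcases tri_mono htd hc h with h | h
    · exact Or.inl h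
    · exact Or.inr (Or.inl h)
  · rcases tri_mono (g := fun s => -g s) htd hc.neg (fun a ha b hb hab => neg_lt_neg (h ha hb hab))
      with ⟨L, hL⟩ | ⟨h1, C, h2⟩
    · left
      refine ⟨-L, ?_⟩
      have := hL.neg
      simpa using this
    · right; right
      refine ⟨?_, -C, fun y hy => ?_⟩
      · have := tendsto_neg_atTop_atBot.comp h1
        simpa [Function.comp_def] using this
      · obtain ⟨s, hs, hs2⟩ := h2 (-y) (by linarith)
        exact ⟨s, hs, by linarith⟩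

theorem left_case {A : Set ℝ} (hA : IsOpen A) {g : ℝ → ℝ} (hc : ContinuousOn g A)
    (hi : InjOn g A) {α β : ℝ} (hα : α ∉ A)
    (H : ∀ ε > 0, ∃ t ∈ A, α - ε < t ∧ t < α ∧ |g t - β| < ε) :
    ∃ d, d ∉ A ∧ (∃ p < d, Ioo p d ⊆ A) ∧ ∃ L, Tendsto g (𝓝[<] d) (𝓝 L) := by
  have hD : ∀ t ∈ A, t < α → ∃ d, t < d ∧ d ≤ α ∧ d ∉ A ∧ Ioo t d ⊆ A := by
    intro t htA htα
    let S : Set ℝ := Aᶜ ∩ Ici t
    have hS : IsClosed S := hA.isClosed_compl.inter isClosed_Ici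
    have hSne : S.Nonempty := ⟨α, hα, htα.le⟩
    have hSb : BddBelow S := ⟨t, fun s hs => hs.2⟩
    have hmem : sInf S ∈ S := hS.csInf_mem hSne hSb
    refine ⟨sInf S, ?_, csInf_le hSb ⟨hα, htα.le⟩, hmem.1, ?_⟩
    · refine lt_of_le_of_ne hmem.2 ?_
      intro h
      exact hmem.1 (h ▸ htA)
    · intro s hs
      by_contra hsA
      exact absurd (csInf_le hSb ⟨hsA, hs.1.le⟩) (not_le.2 hs.2)
  by_cases hcase : ∃ t ∈ A, t < α ∧ Ioo t α ⊆ A
  · obtain ⟨t, htA, htα, hsub⟩ := hcase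
    refine ⟨α, hα, ⟨t, htα, hsub⟩, ?_⟩
    rcases tri htα (hc.mono hsub) (hi.mono hsub) with h | ⟨h, -⟩ | ⟨h, -⟩
    · exact h
    · exfalso
      have h1 := h.eventually_gt_atTop (β + 1)
      rw [eventually_nhdsWithin_iff, Metric.eventually_nhds_iff] at h1
      obtain ⟨e, he, h1⟩ := h1
      obtain ⟨s, -, hs1, hs2, hs3⟩ := H (min e 1) (lt_min he one_pos)
      have h2 := h1 (y := s) (by
        rw [Real.dist_eq, abs_lt]
        have := min_le_left e 1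
        constructor <;> linarith) hs2
      have h3 := (abs_lt.1 hs3).2
      have := min_le_right e 1
      linarith
    · exfalso
      have h1 := h.eventually_lt_atBot (β - 1)
      rw [eventually_nhdsWithin_iff, Metric.eventually_nhds_iff] at h1
      obtain ⟨e, he, h1⟩ := h1
      obtain ⟨s, -, hs1, hs2, hs3⟩ := H (min e 1) (lt_min he one_pos)
      have h2 := h1 (y := s) (by
        rw [Real.dist_eq, abs_lt]
        have := min_le_left e 1
        constructor <;> linarith) hs2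
      have h3 := (abs_lt.1 hs3).1
      have := min_le_right e 1
      linarith
  · push Not at hcase
    have hD' : ∀ t ∈ A, t < α → ∃ d, t < d ∧ d < α ∧ d ∉ A ∧ Ioo t d ⊆ A := by
      intro t htA htα
      obtain ⟨d, h1, h2, h3, h4⟩ := hD t htA htα
      refine ⟨d, h1, lt_of_le_of_ne h2 ?_, h3, h4⟩
      rintro rfl
      exact hcase t htA htα h4
    obtain ⟨t0, ht0A, -, ht0, -⟩ := H 1 one_pos
    obtain ⟨d0, ht0d, hd0, hd0A, hsub0⟩ := hD' t0 ht0A ht0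
    obtain ⟨t1, ht1A, ht1d, ht1, -⟩ := H (α - d0) (by linarith)
    obtain ⟨d1, ht1d1, hd1, hd1A, hsub1⟩ := hD' t1 ht1A ht1
    obtain ⟨t2, ht2A, ht2d, ht2, -⟩ := H (α - d1) (by linarith)
    obtain ⟨d2, ht2d2, hd2, hd2A, hsub2⟩ := hD' t2 ht2A ht2
    have key1 : ∀ {a b a' b' : ℝ}, b ≤ a' → Ioo a b ⊆ A → Ioo a' b' ⊆ A →
        (∃ C, ∀ y, C ≤ y → ∃ s ∈ Ioo a b, g s = y) →
        (∃ C, ∀ y, C ≤ y → ∃ s ∈ Ioo a' b', g s = y) → False := by
      rintro a b a' b' hba h1 h2 ⟨C, hC⟩ ⟨C', hC'⟩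
      obtain ⟨s, hs, hs2⟩ := hC (max C C') (le_max_left _ _)
      obtain ⟨s', hs', hs2'⟩ := hC' (max C C') (le_max_right _ _)
      have := hi (h1 hs) (h2 hs') (hs2.trans hs2'.symm)
      have h3 := hs.2
      have h4 := hs'.1
      linarith
    have key2 : ∀ {a b a' b' : ℝ}, b ≤ a' → Ioo a b ⊆ A → Ioo a' b' ⊆ A →
        (∃ C, ∀ y, y ≤ C → ∃ s ∈ Ioo a b, g s = y) →
        (∃ C, ∀ y, y ≤ C → ∃ s ∈ Ioo a' b', g s = y) → False := by
      rintro a b a' b' hba h1 h2 ⟨C, hC⟩ ⟨C', hC'⟩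
      obtain ⟨s, hs, hs2⟩ := hC (min C C') (min_le_left _ _)
      obtain ⟨s', hs', hs2'⟩ := hC' (min C C') (min_le_right _ _)
      have := hi (h1 hs) (h2 hs') (hs2.trans hs2'.symm)
      have h3 := hs.2
      have h4 := hs'.1
      linarith
    have e01 : d0 ≤ t1 := by linarith
    have e12 : d1 ≤ t2 := by linarith
    have e02 : d0 ≤ t2 := by linarith
    rcases tri ht0d (hc.mono hsub0) (hi.mono hsub0) with h0 | ⟨-, h0⟩ | ⟨-, h0⟩
    · exact ⟨d0, hd0A, ⟨t0, ht0d, hsub0⟩, h0⟩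
    · rcases tri ht1d1 (hc.mono hsub1) (hi.mono hsub1) with h1 | ⟨-, h1⟩ | ⟨-, h1⟩
      · exact ⟨d1, hd1A, ⟨t1, ht1d1, hsub1⟩, h1⟩
      · exact (key1 e01 hsub0 hsub1 h0 h1).elim
      · rcases tri ht2d2 (hc.mono hsub2) (hi.mono hsub2) with h2 | ⟨-, h2⟩ | ⟨-, h2⟩
        · exact ⟨d2, hd2A, ⟨t2, ht2d2, hsub2⟩, h2⟩
        · exact (key1 e02 hsub0 hsub2 h0 h2).elim
        · exact (key2 e12 hsub1 hsub2 h1 h2).elim
    · rcases tri ht1d1 (hc.mono hsub1) (hi.mono hsub1) with h1 | ⟨-, h1⟩ | ⟨-, h1⟩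
      · exact ⟨d1, hd1A, ⟨t1, ht1d1, hsub1⟩, h1⟩
      · rcases tri ht2d2 (hc.mono hsub2) (hi.mono hsub2) with h2 | ⟨-, h2⟩ | ⟨-, h2⟩
        · exact ⟨d2, hd2A, ⟨t2, ht2d2, hsub2⟩, h2⟩
        · exact (key1 e12 hsub1 hsub2 h1 h2).elim
        · exact (key2 e02 hsub0 hsub2 h0 h2).elim
      · exact (key2 e01 hsub0 hsub1 h0 h1).elim

end real

section mfd

variable {M : Type u} [TopologicalSpace M]

/-- `x` is one-sidedly approached by a connected set converging to another point. -/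
def EndProp (x : M) : Prop :=
  ∃ y, y ≠ x ∧ ∀ W : Set M, IsOpen W → y ∈ W → ∀ U : Set M, IsOpen U → x ∈ U →
    ∃ J ⊆ W ∩ U, IsPreconnected J ∧ x ∉ J ∧ x ∈ closure J

theorem EndProp.map {x : M} (hx : EndProp x) (h : M ≃ₜ M) : EndProp (h x) := by
  obtain ⟨y, hyx, hy⟩ := hx
  refine ⟨h y, fun e => hyx (h.injective e), fun W hW hyW U hU hxU => ?_⟩
  obtain ⟨J, hJ, hJc, hxJ, hxcl⟩ := hy (h ⁻¹' W) (hW.preimage h.continuous) hyW (h ⁻¹' U)
    (hU.preimage h.continuous) hxU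
  refine ⟨h '' J, ?_, hJc.image h h.continuous.continuousOn, ?_, ?_⟩
  · rintro _ ⟨z, hz, rfl⟩
    exact hJ hz
  · rintro ⟨z, hz, hzx⟩
    exact hxJ (h.injective hzx ▸ hz)
  · rw [← h.image_closure]
    exact mem_image_of_mem _ hxcl

theorem exists_end_left {j k : ℝ → M} (hj : IsOpenEmbedding j) (hk : IsOpenEmbedding k)
    {α β : ℝ} (hα : j α ∉ range k)
    (H : ∀ ε > 0, ∃ t s : ℝ, α - ε < t ∧ t < α ∧ |s - β| < ε ∧ j t = k s) :
    ∃ x : M, EndProp x := by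
  classical
  let A : Set ℝ := j ⁻¹' (range k)
  let g : ℝ → ℝ := fun t => Function.invFun k (j t)
  have hkg : ∀ t ∈ A, k (g t) = j t := fun t ht => Function.invFun_eq ht
  have hA : IsOpen A := hk.isOpen_range.preimage hj.continuous
  have hgc : ContinuousOn g A := by
    rw [hk.toIsEmbedding.toIsInducing.continuousOn_iff]
    exact hj.continuous.continuousOn.congr hkg
  have hgi : InjOn g A := by
    intro a ha b hb hab
    apply hj.injective
    rw [← hkg a ha, ← hkg b hb, hab]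
  obtain ⟨d, hdA, ⟨p, hpd, hpA⟩, L, hL⟩ := left_case hA hgc hgi (α := α) (β := β) hα (by
    intro ε hε
    obtain ⟨t, s, h1, h2, h3, h4⟩ := H ε hε
    have htA : t ∈ A := ⟨s, h4.symm⟩
    refine ⟨t, htA, h1, h2, ?_⟩
    have : g t = s := hk.injective ((hkg t htA).trans h4)
    rw [this]
    exact h3)
  refine ⟨j d, k L, ?_, ?_⟩
  · intro h
    exact hdA ⟨L, h⟩
  · intro W hW hLW U hU hdU
    have h1 : ∀ᶠ s in 𝓝[<] d, k (g s) ∈ W :=
      ((hk.continuous.tendsto L).comp hL).eventually (hW.mem_nhds hLW)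
    have h2 : ∀ᶠ s in 𝓝[<] d, j s ∈ U :=
      ((hj.continuous.tendsto d).mono_left nhdsWithin_le_nhds).eventually (hU.mem_nhds hdU)
    have h3 : ∀ᶠ s in 𝓝[<] d, s ∈ Ioo p d := Ioo_mem_nhdsLT hpd
    obtain ⟨q, hq, hsub⟩ := (mem_nhdsLT_iff_exists_Ioo_subset).1 ((h1.and h2).and h3)
    refine ⟨j '' Ioo q d, ?_, isPreconnected_Ioo.image j hj.continuous.continuousOn, ?_, ?_⟩
    · rintro _ ⟨s, hs, rfl⟩
      obtain ⟨⟨h4, h5⟩, h6⟩ := hsub hs
      rw [hkg s (hpA h6)] at h4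
      exact ⟨h4, h5⟩
    · rintro ⟨s, hs, hsd⟩
      exact absurd (hj.injective hsd) hs.2.ne
    · have h7 : d ∈ closure (Ioo q d) := by
        rw [closure_Ioo (ne_of_lt hq)]
        exact right_mem_Icc.2 (le_of_lt hq)
      exact map_mem_closure hj.continuous h7 fun s hs => mem_image_of_mem j hs

theorem exists_end {j k : ℝ → M} (hj : IsOpenEmbedding j) (hk : IsOpenEmbedding k)
    {α β : ℝ} (hne : j α ≠ k β)
    (H : ∀ U W : Set M, IsOpen U → IsOpen W → j α ∈ U → k β ∈ W → (U ∩ W).Nonempty) :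
    ∃ x : M, EndProp x := by
  have hα : j α ∉ range k := by
    rintro ⟨γ, hγ⟩
    have hγβ : γ ≠ β := fun h => hne (by rw [← hγ, h])
    obtain ⟨u, v, hu, hv, hγu, hβv, huv⟩ := t2_separation hγβ
    obtain ⟨_, ⟨a, ha, rfl⟩, ⟨b, hb, hab⟩⟩ := H (k '' u) (k '' v) (hk.isOpenMap u hu)
      (hk.isOpenMap v hv) ⟨γ, hγu, hγ⟩ ⟨β, hβv, rfl⟩
    rw [hk.injective hab] at hb
    exact disjoint_left.1 huv ha hb
  have H2 : ∀ ε > 0, ∃ t s : ℝ, |t - α| < ε ∧ |s - β| < ε ∧ j t = k s := by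
    intro ε hε
    obtain ⟨_, ⟨t, ht, rfl⟩, ⟨s, hs, hst⟩⟩ := H (j '' Metric.ball α ε) (k '' Metric.ball β ε)
      (hj.isOpenMap _ Metric.isOpen_ball) (hk.isOpenMap _ Metric.isOpen_ball)
      ⟨α, Metric.mem_ball_self hε, rfl⟩ ⟨β, Metric.mem_ball_self hε, rfl⟩
    rw [Metric.mem_ball, Real.dist_eq] at ht hs
    exact ⟨t, s, ht, hs, hst.symm⟩
  by_cases hL : ∀ ε > 0, ∃ t s : ℝ, α - ε < t ∧ t < α ∧ |s - β| < ε ∧ j t = k s
  · exact exists_end_left hj hk hα hL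
  · push Not at hL
    obtain ⟨e, he, hL⟩ := hL
    have hj' : IsOpenEmbedding (fun t => j (-t)) :=
      hj.comp (Homeomorph.neg ℝ).isOpenEmbedding
    refine exists_end_left (α := -α) (β := β) hj' hk (by simpa using hα) fun ε hε => ?_
    obtain ⟨t, s, h1, h2, h3⟩ := H2 (min e ε) (lt_min he hε)
    have h4 := abs_lt.1 h1
    have h5 := min_le_left e ε
    have h6 := min_le_right e ε
    have h7 : ¬ t < α := by
      intro h
      exact hL t s (by linarith) h (lt_of_lt_of_le h2 h5) h3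
    have h8 : t ≠ α := by
      rintro rfl
      exact hα ⟨s, h3.symm⟩
    have h9 : α < t := lt_of_le_of_ne (not_lt.1 h7) h8.symm
    refine ⟨-t, s, by linarith, by linarith, lt_of_lt_of_le h2 h6, ?_⟩
    simpa using h3

theorem exists_chart (hM : IsHNHManifold 1 M) (x : M) :
    ∃ j : ℝ → M, IsOpenEmbedding j ∧ x ∈ range j := by
  obtain ⟨U, hU, hxU, ⟨e⟩⟩ := hM.locallyEuclidean x
  let e2 : EuclideanSpace ℝ (Fin 1) ≃ₜ ℝ :=
    (EuclideanSpace.equiv (Fin 1) ℝ).toHomeomorph.trans (Homeomorph.funUnique (Fin 1) ℝ)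
  let f : ℝ ≃ₜ U := (e.trans e2).symm
  refine ⟨fun t => (f t : M), hU.isOpenEmbedding_subtypeVal.comp f.isOpenEmbedding, ?_⟩
  exact ⟨f.symm ⟨x, hxU⟩, by simp⟩

theorem all_end (hM : IsHNHManifold 1 M) (x : M) : EndProp x := by
  have h1 : ∃ x : M, EndProp x := by
    have hnh : ∃ a b : M, a ≠ b ∧ ∀ u v : Set M, IsOpen u → IsOpen v → a ∈ u → b ∈ v →
        ¬ Disjoint u v := by
      by_contra hcon
      apply hM.notHausdorff
      refine ⟨fun a b hab => ?_⟩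
      by_contra H
      apply hcon
      refine ⟨a, b, hab, fun u v hu hv hau hbv huv => ?_⟩
      exact H ⟨u, v, hu, hv, hau, hbv, huv⟩
    obtain ⟨a, b, hab, H⟩ := hnh
    obtain ⟨j, hj, α, rfl⟩ := exists_chart hM a
    obtain ⟨k, hk, β, rfl⟩ := exists_chart hM b
    refine exists_end hj hk hab fun U W hU hW h1 h2 => ?_
    rw [← not_disjoint_iff_nonempty_inter]
    exact H U W hU hW h1 h2
  obtain ⟨x0, hx0⟩ := h1
  obtain ⟨h, rfl⟩ := hM.homogeneous x0 x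
  exact hx0.map h

theorem exists_side {j : ℝ → M} (hj : IsOpenEmbedding j) {V : Set M} (hV : IsOpen V)
    [T2Space V] {s : ℝ} {y : M} (hy : y ≠ j s) (hyV : y ∈ V)
    (H : ∀ W : Set M, IsOpen W → y ∈ W → ∀ U : Set M, IsOpen U → j s ∈ U →
      ∃ J ⊆ W ∩ U, IsPreconnected J ∧ j s ∉ J ∧ j s ∈ closure J) :
    j s ∉ V ∧ ((∃ q : ℚ, (q : ℝ) < s ∧ ∀ r : ℝ, (q : ℝ) < r → r < s → j r ∈ V) ∨
      (∃ q : ℚ, s < (q : ℝ) ∧ ∀ r : ℝ, s < r → r < (q : ℝ) → j r ∈ V)) := by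
  constructor
  · intro hsV
    have hne : (⟨y, hyV⟩ : V) ≠ ⟨j s, hsV⟩ := fun h => hy (congrArg Subtype.val h)
    obtain ⟨u, v, hu, hv, hyu, hsv, huv⟩ := t2_separation hne
    obtain ⟨J, hJ, -, -, hJcl⟩ := H (Subtype.val '' u) (hV.isOpenMap_subtype_val u hu)
      ⟨_, hyu, rfl⟩ (Subtype.val '' v) (hV.isOpenMap_subtype_val v hv) ⟨_, hsv, rfl⟩
    have hJne : J.Nonempty := closure_nonempty_iff.1 ⟨_, hJcl⟩
    obtain ⟨z, hz⟩ := hJne
    obtain ⟨⟨a, ha, haz⟩, ⟨b, hb, hbz⟩⟩ := hJ hz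
    have hab : a = b := Subtype.ext (haz.trans hbz.symm)
    rw [← hab] at hb
    exact disjoint_left.1 huv ha hb
  · obtain ⟨J, hJ, hJc, hsJ, hJcl⟩ := H V hV hyV (range j) hj.isOpen_range (mem_range_self s)
    let J' : Set ℝ := j ⁻¹' J
    have hJ'c : IsPreconnected J' := hJc.preimage_of_isOpenMap hj.injective hj.isOpenMap
      fun z hz => (hJ hz).2
    have hsJ' : s ∉ J' := hsJ
    have himg : j '' J' = J := image_preimage_eq_of_subset fun z hz => (hJ hz).2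
    have hcl : s ∈ closure J' := by
      rw [hj.toIsEmbedding.toIsInducing.closure_eq_preimage_closure_image, himg]
      exact hJcl
    have hJV : ∀ r ∈ J', j r ∈ V := fun r hr => (hJ hr).1
    have hord := hJ'c.ordConnected
    obtain ⟨t, ht⟩ : J'.Nonempty := closure_nonempty_iff.1 ⟨s, hcl⟩
    rcases lt_trichotomy t s with hts | hts | hts
    · left
      obtain ⟨q, hq1, hq2⟩ := exists_rat_btwn hts
      refine ⟨q, hq2, fun r hr1 hr2 => ?_⟩
      obtain ⟨r', hr'J, hr'⟩ : ∃ r' ∈ J', r < r' := by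
        have := mem_closure_iff.1 hcl (Ioi r) isOpen_Ioi hr2
        obtain ⟨r', h1, h2⟩ := this
        exact ⟨r', h2, h1⟩
      exact hJV r (hord.out ht hr'J ⟨(hq1.trans hr1).le, hr'.le⟩)
    · exact absurd (hts ▸ ht) hsJ'
    · right
      obtain ⟨q, hq1, hq2⟩ := exists_rat_btwn hts
      refine ⟨q, hq1, fun r hr1 hr2 => ?_⟩
      obtain ⟨r', hr'J, hr'⟩ : ∃ r' ∈ J', r' < r := by
        have := mem_closure_iff.1 hcl (Iio r) isOpen_Iio hr1
        obtain ⟨r', h1, h2⟩ := this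
        exact ⟨r', h2, h1⟩
      exact hJV r (hord.out hr'J ht ⟨hr'.le, (hr2.trans hq2).le⟩)

theorem cover_ge (hM : IsHNHManifold 1 M) (𝒱 : Set (Set M))
    (h1 : ∀ V ∈ 𝒱, IsOpen V ∧ T2Space V) (h2 : ⋃₀ 𝒱 = Set.univ) : 𝔠 ≤ #𝒱 := by
  classical
  have := hM.connected
  obtain ⟨x0⟩ : Nonempty M := inferInstance
  obtain ⟨j, hj, -⟩ := exists_chart hM x0
  have h3 : ∀ s : ℝ, ∃ V : 𝒱, j s ∉ V.1 ∧
      ((∃ q : ℚ, (q : ℝ) < s ∧ ∀ r : ℝ, (q : ℝ) < r → r < s → j r ∈ V.1) ∨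
      (∃ q : ℚ, s < (q : ℝ) ∧ ∀ r : ℝ, s < r → r < (q : ℝ) → j r ∈ V.1)) := by
    intro s
    obtain ⟨y, hy, H⟩ := all_end hM (j s)
    have hyU : y ∈ ⋃₀ 𝒱 := by rw [h2]; trivial
    obtain ⟨V, hV, hyV⟩ := hyU
    obtain ⟨hVo, hVt⟩ := h1 V hV
    exact ⟨⟨V, hV⟩, exists_side hj hVo hy hyV H⟩
  choose V hV1 hV2 using h3
  have h4 : ∀ s : ℝ, ∃ p : Bool × ℚ,
      (p.1 = true → ((p.2 : ℝ) < s ∧ ∀ r : ℝ, (p.2 : ℝ) < r → r < s → j r ∈ (V s).1)) ∧
      (p.1 = false → (s < (p.2 : ℝ) ∧ ∀ r : ℝ, s < r → r < (p.2 : ℝ) → j r ∈ (V s).1)) := by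
    intro s
    rcases hV2 s with ⟨q, hq⟩ | ⟨q, hq⟩
    · exact ⟨(true, q), fun _ => hq, fun h => by simp at h⟩
    · exact ⟨(false, q), fun h => by simp at h, fun _ => hq⟩
  choose p hp1 hp2 using h4
  let F : ℝ → 𝒱 × (Bool × ℚ) := fun s => (V s, p s)
  have hF0 : ∀ s s' : ℝ, s < s' → F s ≠ F s' := by
    intro s s' hss h
    have hVs : V s = V s' := congrArg Prod.fst h
    have hps : p s = p s' := congrArg Prod.snd h
    rcases hb : (p s).1 with _ | _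
    · obtain ⟨h5, h6⟩ := hp2 s hb
      obtain ⟨h7, h8⟩ := hp2 s' (hps ▸ hb)
      rw [hps] at h6
      have := h6 s' hss h7
      rw [hVs] at this
      exact hV1 s' this
    · obtain ⟨h5, h6⟩ := hp1 s hb
      obtain ⟨h7, h8⟩ := hp1 s' (hps ▸ hb)
      rw [hps] at h5
      have := h8 s h5 hss
      rw [← hVs] at this
      exact hV1 s this
  have hF : Function.Injective F := by
    intro s s' h
    rcases lt_trichotomy s s' with h5 | h5 | h5
    · exact absurd h (hF0 s s' h5)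
    · exact h5
    · exact absurd h.symm (hF0 s' s h5)
  have h5 := Cardinal.mk_le_of_injective (f := fun s : ULift.{u} ℝ => F s.down)
    (hF.comp ULift.down_injective)
  by_contra hlt
  push Not at hlt
  have h6 : #(𝒱 × (Bool × ℚ)) < 𝔠 := by
    rw [Cardinal.mk_prod]
    simp only [Cardinal.lift_uzero]
    refine Cardinal.mul_lt_of_lt Cardinal.aleph0_le_continuum hlt ?_
    have : #(Bool × ℚ) ≤ ℵ₀ := Cardinal.mk_le_aleph0
    calc Cardinal.lift.{u} #(Bool × ℚ) ≤ Cardinal.lift.{u} ℵ₀ := Cardinal.lift_le.2 this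
      _ = ℵ₀ := Cardinal.lift_aleph0
      _ < 𝔠 := Cardinal.aleph0_lt_continuum
  have h7 : #(ULift.{u} ℝ) = 𝔠 := by
    rw [Cardinal.mk_uLift, Cardinal.mk_real, Cardinal.lift_continuum]
  rw [h7] at h5
  exact absurd (lt_of_le_of_lt h5 h6) (lt_irrefl _)

end mfd

/-- Every homogeneous non-Hausdorff `1`-manifold needs at least continuum many open Hausdorff
sets to be covered. -/
theorem result {M : Type u} [TopologicalSpace M] (hM : IsHNHManifold 1 M) : 𝔠 ≤ OH M := by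
  refine le_csInf ?_ ?_
  · refine ⟨_, {V : Set M | IsOpen V ∧ T2Space V}, fun V hV => hV, ?_, rfl⟩
    rw [eq_univ_iff_forall]
    intro x
    obtain ⟨U, hU, hxU, ⟨e⟩⟩ := hM.locallyEuclidean x
    exact ⟨U, ⟨hU, e.isEmbedding.t2Space⟩, hxU⟩
  · rintro κ ⟨𝒱, h1, h2, rfl⟩
    exact cover_ge hM 𝒱 h1 h2

end Pool.Agent.Results.MP_e9190d_gt.DimOne
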